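import Pool.Agent.R124.IP.Last

set_option autoImplicit false

open scoped Pointwise
open R124.IP

namespace Pool.Agent.Results.MP_86f7a7_co.LargeConvexBodies

/-- The lattice points of a large symmetric convex body of dimension `d` are covered by
`2 ^ O(d)` translates of an efficient progression of rank `O(d ^ 2 log d)`; hence the conclusion
of the conjecture holds for every set of small doubling that is commensurate with such a set (up to
factors polynomial in `K`), with rank polylogarithmic in `K`. -/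
theorem result :
    (∀ (d : ℕ) (H : Type) [AddCommGroup H] (T : H →+ (Fin d → ℝ)) (B : Set (Fin d → ℝ)),
      Large T B →
      ∃ (r : ℕ) (a : H) (v : Fin r → H) (N : Fin r → ℕ) (F : Finset H),
        (r : ℝ) ≤ 9 * (d : ℝ) ^ 2 * (1 + Real.logb 2 d) ∧ (∀ i, 1 ≤ N i) ∧
        (prog a v N).Finite ∧ (prog a v N).ncard ≤ 2 ^ (25 * d) * (pts T B).ncard ∧
        F.card ≤ 2 ^ (20 * d) ∧ pts T B ⊆ (F : Set H) + prog a v N) ∧
    (∀ C₀ : ℝ, 1 ≤ C₀ → ∃ C : ℝ, 1 ≤ C ∧
      ∀ (G : Type) [AddCommGroup G] (K : ℝ) (A : Set G) (d : ℕ) (H : Type) [AddCommGroup H]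
        (T : H →+ (Fin d → ℝ)) (B : Set (Fin d → ℝ)) (φ : H →+ G) (t : G),
        A.Finite → A.Nonempty → ((A + A).ncard : ℝ) ≤ K * A.ncard →
        Large T B → (Function.Injective φ ∨ (d : ℝ) ≤ C₀ * (1 + Real.log K)) →
        ((pts T B).ncard : ℝ) ≤ C₀ * K ^ C₀ * A.ncard →
        (A.ncard : ℝ) ≤ C₀ * K ^ C₀ * (A ∩ (fun x => t + φ x) '' pts T B).ncard →
        Concl C K A) := by
  refine ⟨?_, ?_⟩
  · intro d H _ T B hL
    exact convexCover2 d hL.dim T hL.inj B hL.body hL.fin hL.cov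
  · intro C₀ hC₀
    exact near_both C₀ hC₀

end Pool.Agent.Results.MP_86f7a7_co.LargeConvexBodies
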