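import Pool.Agent.R934.LB.Power
set_option autoImplicit false
set_option linter.unusedVariables false

/-! # The polynomial Freiman-Ruzsa conjecture with progressions fails for large classes of
progressions of arbitrary rank

For every `C` and every real `K ≥ 2025` there is a finite subset `A` of a torsion-free group with
`|A + A| ≤ K |A|` and `|A| ≥ K ^ C` such that, with constants which depend only on `C` (and `ε`), for
progressions `P` of ARBITRARY rank: those inside a translate of `m A - m A` have at most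
`exp (B m ^ 2)` elements; if a translate of `m A - m A` meets `P` in `η N₁ ⋯ N_d` elements, then
`N₁ ⋯ N_d` is at most a power of `1 / η`, and `|P| ≤ exp (B (m / η) ^ 5)`; and
`|A ∩ P| ≤ N₀ ^ h |P| ^ ε`, where `h` is the number of sides of `P` between `2` and `N₀ - 1`. So every
progression `P` as in the question (of any rank) has `N₁ ⋯ N_d ≥ c K ^ c |A ∩ P|` (that is
`|P| ≥ c K ^ c |A ∩ P|` if `P` is proper), it has at least `log K / log N₀` sides between `2` and
`N₀ - 1`, and it is in a translate of `m A - m A` only if `B m ^ 2 ≥ log K`.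

`A` is a ball in a lattice of dimension `n ~ log K` whose minimum is comparable to that of a
lattice chosen at random (Minkowski-Hlawka, by counting, among the lattices of integer vectors
congruent modulo `p` to the multiples of a vector `u`). The first bound comes from the existence of
a vertex of a parallelepiped far from any given point. For the power saving, the parameters of `P` are
divided into `M` blocks, and a dense subset of the box of parameters contains a cube with a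
nonzero direction in each block (Cauchy-Schwarz, as in the theorem of Erdős on complete
`M`-partite hypergraphs); its image in the lattice is a parallelepiped with `M` nonzero edges. The
bound `exp (B (m / η) ^ 5)` uses a Littlewood-Offord inequality in Euclidean spaces, independent of the
dimension; the last bound uses packing in subspaces. -/

open scoped Classical Pointwise
open Finset Pool.Agent.R934.LB

namespace Pool.Agent.Results.MP_86f7a7_co.LatticeBalls

/-- Every progression, of any rank, contained in a translate of `m A - m A` has at most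
`exp (B m ^ 2)` elements. -/
def SmallInside {G : Type} [AddCommGroup G] (A : Set G) (B : ℝ) : Prop :=
  ∀ (d m : ℕ) (x a : G) (v : Fin d → G) (N : Fin d → ℕ), Prog a v N ⊆ Transl A m x →
    ((Prog a v N).ncard : ℝ) ≤ Real.exp (B * (m : ℝ) ^ 2)

/-- Every progression `P`, of any rank, which a translate of `m A - m A`, `m ≥ 1`, meets in at least
`η N₁ ⋯ N_d` elements, `η > 0`, has at most `exp (B (m / η) ^ 5)` elements. -/
def SmallDense {G : Type} [AddCommGroup G] (A : Set G) (B : ℝ) : Prop :=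
  ∀ (d m : ℕ) (x a : G) (v : Fin d → G) (N : Fin d → ℕ) (η : ℝ), 1 ≤ m → 0 < η →
    η * ((∏ i, N i : ℕ) : ℝ) ≤ ((Prog a v N ∩ Transl A m x).ncard : ℝ) →
    ((Prog a v N).ncard : ℝ) ≤ Real.exp (B * ((m : ℝ) / η) ^ 5)

/-- If a translate of `m A - m A`, `m ≥ 1`, meets a progression, of any rank, in at least
`η N₁ ⋯ N_d` elements, `0 < η ≤ 1`, then `N₁ ⋯ N_d ≤ (D m / η) ^ (D m)`. -/
def PowerSaving {G : Type} [AddCommGroup G] (A : Set G) (D : ℕ → ℕ) : Prop :=
  ∀ (d m : ℕ) (x a : G) (v : Fin d → G) (N : Fin d → ℕ) (η : ℝ), 1 ≤ m → 0 < η → η ≤ 1 →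
    η * ((∏ i, N i : ℕ) : ℝ) ≤ ((Prog a v N ∩ Transl A m x).ncard : ℝ) →
    ((∏ i, N i : ℕ) : ℝ) ≤ ((D m : ℝ) / η) ^ (D m)

/-- For every progression `P`, of any rank, with `h` sides at least `2` and less than `N₀`, the
intersection of `A` and `P` has at most `N₀ ^ h |P| ^ ε` elements. -/
def FewCommon {G : Type} [AddCommGroup G] (A : Set G) (N₀ : ℕ) (ε : ℝ) : Prop :=
  ∀ (d : ℕ) (a : G) (v : Fin d → G) (N : Fin d → ℕ),
    ((A ∩ Prog a v N).ncard : ℝ) ≤ (N₀ : ℝ) ^ (short N₀ N) * ((Prog a v N).ncard : ℝ) ^ ε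

/-- Every progression `P`, of any rank, with the two properties of the question,
`|P| ≤ C K ^ C |A|` and `|A ∩ P| ≥ C⁻¹ K ^ (-C) |A|`, has the following properties:
`N₁ ⋯ N_d ≥ c K ^ c |A ∩ P|`; at least `log K / log N₀` of its sides are at least `2` and less than
`N₀`; if it is contained in a translate of `m A - m A`, then `B m ^ 2 ≥ log K`. -/
def Constraints {G : Type} [AddCommGroup G] (A : Set G) (K C B c : ℝ) (N₀ : ℕ) : Prop :=
  ∀ (d : ℕ) (a : G) (v : Fin d → G) (N : Fin d → ℕ),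
    ((Prog a v N).ncard : ℝ) ≤ C * K ^ C * A.ncard →
    C⁻¹ * K ^ (-C) * A.ncard ≤ ((A ∩ Prog a v N).ncard : ℝ) →
    c * K ^ c * ((A ∩ Prog a v N).ncard : ℝ) ≤ ((∏ i, N i : ℕ) : ℝ) ∧
    Real.log K ≤ short N₀ N * Real.log N₀ ∧
    (∀ (m : ℕ) (x : G), Prog a v N ⊆ Transl A m x → Real.log K ≤ B * (m : ℝ) ^ 2)

/-- the numerical form of the power saving -/
theorem power_num {X η y : ℝ} {e M D : ℕ} (hX : 1 ≤ X) (hη : 0 < η) (hη1 : η ≤ 1) (he : 1 ≤ e)
    (hM : 1 ≤ M) (hD : X * e * M ≤ D) (h : y ≤ (X * (1 / η) ^ e) ^ M) : y ≤ ((D : ℝ) / η) ^ D := by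
  have h1η : 1 ≤ 1 / η := by rw [le_div_iff₀ hη]; linarith
  have her : (1 : ℝ) ≤ e := by exact_mod_cast he
  have hMr : (1 : ℝ) ≤ M := by exact_mod_cast hM
  have hXe : X ≤ X * e * M := by
    have h1 : 1 ≤ (e : ℝ) * M := by nlinarith
    nlinarith
  have heM : ((e * M : ℕ) : ℝ) ≤ X * e * M := by
    push_cast
    have h1 : 0 ≤ (e : ℝ) * M := by positivity
    nlinarith
  have hXD : X ≤ D := hXe.trans hD
  have heD : e * M ≤ D := by exact_mod_cast heM.trans hD
  have hD1 : 1 ≤ (D : ℝ) / η := by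
    rw [le_div_iff₀ hη]; linarith
  calc y ≤ (X * (1 / η) ^ e) ^ M := h
    _ ≤ (X ^ e * (1 / η) ^ e) ^ M := by
        apply pow_le_pow_left₀ (by positivity)
        apply mul_le_mul_of_nonneg_right _ (by positivity)
        calc X = X ^ 1 := (pow_one X).symm
          _ ≤ X ^ e := pow_le_pow_right₀ hX he
    _ = (X / η) ^ (e * M) := by
        rw [← mul_pow, ← pow_mul]
        congr 1
        ring
    _ ≤ ((D : ℝ) / η) ^ (e * M) := by
        apply pow_le_pow_left₀ (by positivity)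
        exact div_le_div_of_nonneg_right hXD hη.le
    _ ≤ ((D : ℝ) / η) ^ D := pow_le_pow_right₀ hD1 heD

theorem num_short {C K a t P M : ℝ} (hC : 1 ≤ C) (hK : 2025 ≤ K) (ha : K ^ (6 * C + 2) ≤ a)
    (ht : C⁻¹ * K ^ (-C) * a ≤ t) (hP0 : 0 ≤ P) (hP : P ≤ C * K ^ C * a) (hM : 0 ≤ M)
    (h : t ≤ M * P ^ (1 / 2 : ℝ)) : K ≤ M ∧ K ≤ t := by
  have hK0 : 0 < K := by linarith
  have hlog : 1 ≤ Real.log K := by
    rw [Real.le_log_iff_exp_le hK0]
    have := Real.exp_one_lt_d9
    linarith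
  have hCK : C ≤ K ^ C := by
    rw [Real.rpow_def_of_pos hK0]
    have h1 := Real.add_one_le_exp (Real.log K * C)
    nlinarith
  set Q : ℝ := C * K ^ C with hQ
  have hKC : 1 ≤ K ^ C := Real.one_le_rpow (by linarith) (by linarith)
  have hQpos : 0 < Q := by positivity
  have hQle : Q ≤ K ^ (2 * C) := by
    rw [hQ, two_mul, Real.rpow_add hK0]
    exact mul_le_mul_of_nonneg_right hCK (by positivity)
  have hapos : 0 < a := lt_of_lt_of_le (by positivity) ha
  have ht' : a ≤ t * Q := by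
    have h1 : C⁻¹ * K ^ (-C) * a = a / Q := by
      rw [Real.rpow_neg hK0.le, hQ]
      field_simp
    rw [h1, div_le_iff₀ hQpos] at ht
    exact ht
  have ht0 : 0 < t := by
    by_contra hcon
    push Not at hcon
    nlinarith
  have hK2 : K ^ (6 * C + 2) = K ^ (2 * C) * K ^ (2 * C) * K ^ (2 * C) * K ^ 2 := by
    rw [← Real.rpow_natCast, ← Real.rpow_add hK0, ← Real.rpow_add hK0, ← Real.rpow_add hK0]
    congr 1
    push_cast
    ring
  constructor
  · have h1 : t ^ 2 ≤ M ^ 2 * P := by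
      have h2 : t ^ 2 ≤ (M * P ^ (1 / 2 : ℝ)) ^ 2 := pow_le_pow_left₀ ht0.le h 2
      rw [mul_pow] at h2
      have h3 : (P ^ (1 / 2 : ℝ)) ^ 2 = P := by
        rw [← Real.rpow_natCast, ← Real.rpow_mul hP0]
        norm_num
      rwa [h3] at h2
    have h2 : a ^ 2 ≤ (t * Q) ^ 2 := pow_le_pow_left₀ hapos.le ht' 2
    have h3 : a ^ 2 ≤ (M ^ 2 * (Q * a)) * Q ^ 2 := by
      calc a ^ 2 ≤ (t * Q) ^ 2 := h2
        _ = t ^ 2 * Q ^ 2 := by ring
        _ ≤ (M ^ 2 * P) * Q ^ 2 := mul_le_mul_of_nonneg_right h1 (by positivity)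
        _ ≤ (M ^ 2 * (Q * a)) * Q ^ 2 := by
            apply mul_le_mul_of_nonneg_right _ (by positivity)
            exact mul_le_mul_of_nonneg_left hP (by positivity)
    have h4 : a ≤ M ^ 2 * (Q * Q * Q) := by
      have h5 : a * a ≤ a * (M ^ 2 * (Q * Q * Q)) := by nlinarith
      exact le_of_mul_le_mul_left h5 hapos
    have h5 : Q * Q * Q ≤ K ^ (2 * C) * K ^ (2 * C) * K ^ (2 * C) := by
      apply mul_le_mul _ hQle hQpos.le (by positivity)
      exact mul_le_mul hQle hQle hQpos.le (by positivity)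
    have h6 : (K ^ (2 * C) * K ^ (2 * C) * K ^ (2 * C)) * K ^ 2 ≤
        (K ^ (2 * C) * K ^ (2 * C) * K ^ (2 * C)) * M ^ 2 := by
      rw [← hK2]
      calc K ^ (6 * C + 2) ≤ a := ha
        _ ≤ M ^ 2 * (Q * Q * Q) := h4
        _ ≤ M ^ 2 * (K ^ (2 * C) * K ^ (2 * C) * K ^ (2 * C)) :=
            mul_le_mul_of_nonneg_left h5 (by positivity)
        _ = _ := by ring
    have h7 := le_of_mul_le_mul_left h6 (by positivity)
    exact le_of_sq_le_sq h7 hM
  · have h1 : K ^ (2 * C) * K ≤ K ^ (6 * C + 2) := by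
      have h2 : 1 ≤ K ^ (2 * C) := Real.one_le_rpow (by linarith) (by linarith)
      rw [hK2]
      have h3 : K ≤ K ^ (2 * C) * K ^ (2 * C) * K ^ 2 := by
        have h4 : 1 ≤ K ^ (2 * C) * K ^ (2 * C) := by nlinarith
        nlinarith
      calc K ^ (2 * C) * K ≤ K ^ (2 * C) * (K ^ (2 * C) * K ^ (2 * C) * K ^ 2) :=
            mul_le_mul_of_nonneg_left h3 (by positivity)
        _ = _ := by ring
    have h2 : K ^ (2 * C) * K ≤ K ^ (2 * C) * t := by
      calc K ^ (2 * C) * K ≤ a := h1.trans ha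
        _ ≤ t * Q := ht'
        _ ≤ t * K ^ (2 * C) := mul_le_mul_of_nonneg_left hQle ht0.le
        _ = _ := mul_comm _ _
    exact le_of_mul_le_mul_left h2 (by positivity)

/-- Let `C ≥ 1` and `ε > 0`. There are `B > 0`, `c > 0`, `N₀` and `D : ℕ → ℕ` such that for every real
`K ≥ 2025` there are a torsion-free group `Z` (a subgroup of `ℤⁿ` for some `n`) and a finite nonempty
set `A` in `Z` with `|A + A| ≤ K |A|` and `|A| ≥ K ^ C`, for which all progressions
`P = {a + ∑ kᵢ vᵢ : 0 ≤ kᵢ < Nᵢ}` of any rank `d` in `Z` have the following properties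
(`Transl A m x` is `x + m A - m A`, `short N₀ N` is the number of sides with `2 ≤ Nᵢ < N₀`):
(1) if `P` is contained in a translate of `m A - m A`, then `|P| ≤ exp (B m ^ 2)`;
(2) if a translate of `m A - m A`, `m ≥ 1`, meets `P` in at least `η N₁ ⋯ N_d` elements, then
`N₁ ⋯ N_d ≤ (D m / η) ^ (D m)` and `|P| ≤ exp (B (m / η) ^ 5)`;
(3) `|A ∩ P| ≤ N₀ ^ (short N₀ N) * |P| ^ ε`;
(4) if `P` is as in the question, that is `|P| ≤ C K ^ C |A|` and `|A ∩ P| ≥ C⁻¹ K ^ (-C) |A|`, then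
`N₁ ⋯ N_d ≥ c K ^ c |A ∩ P|`; at least `log K / log N₀` sides of `P` are at least `2` and less than
`N₀`; and if `P` is contained in a translate of `m A - m A`, then `B m ^ 2 ≥ log K`. -/
theorem result : ∀ C : ℝ, 1 ≤ C → ∀ ε : ℝ, 0 < ε → ∃ (B c : ℝ) (N₀ : ℕ) (D : ℕ → ℕ),
    0 < B ∧ 0 < c ∧ 2 ≤ N₀ ∧
    ∀ K : ℝ, 2025 ≤ K → ∃ (n : ℕ) (Z : AddSubgroup (Fin n → ℤ)) (A : Set Z),
      (∀ (k : ℕ) (x : Z), k ≠ 0 → k • x = 0 → x = 0) ∧
      A.Finite ∧ A.Nonempty ∧ ((A + A).ncard : ℝ) ≤ K * A.ncard ∧ K ^ C ≤ (A.ncard : ℝ) ∧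
      SmallInside A B ∧ SmallDense A B ∧ PowerSaving A D ∧ FewCommon A N₀ ε ∧
      Constraints A K C B c N₀ := by
  intro C hC ε hε
  -- constants
  set E : ℝ := 6 * C + 2 with hE
  set ε' : ℝ := min ε (1 / 2) with hε'
  have hε'pos : 0 < ε' := lt_min hε (by norm_num)
  obtain ⟨ρ, hρ⟩ := exists_nat_ge (46 * (45 : ℝ) ^ (2 * E))
  have h45 : (1 : ℝ) ≤ (45 : ℝ) ^ (2 * E) := Real.one_le_rpow (by norm_num) (by rw [hE]; linarith)
  have hρ1r : (1 : ℝ) ≤ ρ := by linarith
  have hρ1 : 1 ≤ ρ := by exact_mod_cast hρ1r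
  obtain ⟨N₁, hN₁⟩ := exists_nat_ge ((4 * (ρ : ℝ) + 1) ^ (1 / ε'))
  set N₀ : ℕ := N₁ + 2 with hN₀
  have hN₀2 : 2 ≤ N₀ := by omega
  have hρN : 4 * (ρ : ℝ) + 1 ≤ (N₀ : ℝ) ^ ε' := by
    have h1 : (4 * (ρ : ℝ) + 1) ^ (1 / ε') ≤ (N₀ : ℝ) := by
      rw [hN₀]; push_cast; linarith
    calc 4 * (ρ : ℝ) + 1 = ((4 * (ρ : ℝ) + 1) ^ (1 / ε')) ^ ε' := by
          rw [← Real.rpow_mul (by positivity), one_div, inv_mul_cancel₀ hε'pos.ne', Real.rpow_one]
      _ ≤ (N₀ : ℝ) ^ ε' := Real.rpow_le_rpow (by positivity) h1 hε'pos.le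
  set B : ℝ := 2048 * (5 * (ρ : ℝ)) ^ 5 with hB
  have hBpos : 0 < B := by positivity
  have hB16 : 16 * (ρ : ℝ) ^ 2 ≤ B := by
    have h1 : (ρ : ℝ) ^ 2 ≤ (ρ : ℝ) ^ 5 := pow_le_pow_right₀ hρ1r (by norm_num)
    have h2 : B = 6400000 * (ρ : ℝ) ^ 5 := by rw [hB]; ring
    have h3 : 0 ≤ (ρ : ℝ) ^ 5 := by positivity
    linarith
  set D : ℕ → ℕ := fun m => 2 * 2 ^ (2 ^ (16 * m ^ 2 * ρ ^ 2)) * (4 * m * ρ + 1) *
    (2 ^ (16 * m ^ 2 * ρ ^ 2) + 1) * (16 * m ^ 2 * ρ ^ 2) with hDdef
  have hD1 : 1 ≤ D 1 := by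
    rw [hDdef]
    simp only
    exact Nat.one_le_iff_ne_zero.2 (by positivity)
  have hD1r : (1 : ℝ) ≤ D 1 := by exact_mod_cast hD1
  have hcpos : 0 < 1 / (D 1 : ℝ) := by positivity
  refine ⟨B, 1 / (D 1 : ℝ), N₀, D, hBpos, hcpos, hN₀2, ?_⟩
  intro K hK
  have hK0 : 0 < K := by linarith
  obtain ⟨n, hn1, hn2⟩ := exists_nat_pow_near (x := K) (y := 45) (by linarith) (by norm_num)
  have hn : 2 ≤ n := by
    by_contra hcon
    push Not at hcon
    have h1 : (45 : ℝ) ^ (n + 1) ≤ 45 ^ 2 := pow_le_pow_right₀ (by norm_num) (by omega)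
    norm_num at h1
    linarith
  obtain ⟨p, q, hp, hq, h23, h46, hqn⟩ := exists_params n hn
  have hpf : Fact p.Prime := ⟨hp⟩
  obtain ⟨u, hu0, hu⟩ := exists_dir hn h23 hq hqn
  have hn' : 1 ≤ n := by omega
  have hs : 1 ≤ ρ * q := Nat.one_le_iff_ne_zero.2 (by positivity)
  set A₀ : Finset (Fin n → ℤ) := Bl u (ρ * q) 1 with hA₀
  -- size
  have hsize : K ^ E ≤ (A₀.card : ℝ) := by
    have h1 := ball_large hn' u hu0 (ρ * q) hs
    have h2 : (ρ * q) ^ n ≤ A₀.card * (46 * q) ^ n := h1.trans (Nat.mul_le_mul_left _ h46)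
    have h3 : ρ ^ n ≤ A₀.card * 46 ^ n := by
      rw [mul_pow, mul_pow, ← mul_assoc] at h2
      exact Nat.le_of_mul_le_mul_right h2 (by positivity)
    have h4 : (ρ : ℝ) ^ n ≤ (A₀.card : ℝ) * 46 ^ n := by exact_mod_cast h3
    have h5 : ((45 : ℝ) ^ (2 * E)) ^ n ≤ A₀.card := by
      have h6 : (46 * (45 : ℝ) ^ (2 * E)) ^ n ≤ (ρ : ℝ) ^ n :=
        pow_le_pow_left₀ (by positivity) hρ n
      rw [mul_pow, mul_comm] at h6
      exact le_of_mul_le_mul_right (h6.trans h4) (by positivity)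
    refine le_trans ?_ h5
    have h6 : K ≤ (45 : ℝ) ^ (2 * n) :=
      hn2.le.trans (pow_le_pow_right₀ (by norm_num) (by omega))
    calc K ^ E ≤ ((45 : ℝ) ^ (2 * n)) ^ E :=
          Real.rpow_le_rpow hK0.le h6 (by rw [hE]; linarith)
      _ = ((45 : ℝ) ^ (2 * E)) ^ n := by
          rw [← Real.rpow_natCast, ← Real.rpow_natCast, ← Real.rpow_mul (by norm_num),
            ← Real.rpow_mul (by norm_num)]
          congr 1
          push_cast
          ring
  have hdouble : ((Bl u (ρ * q) 2).card : ℝ) ≤ K * (A₀.card : ℝ) :=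
    (ball_two hn' u (ρ * q) hs).trans (mul_le_mul_of_nonneg_right hn1 (Nat.cast_nonneg _))
  -- the group and the set
  set f : (Lat u) →+ (Fin n → ℤ) := (Lat u).subtype with hf
  have hfi : Function.Injective f := Subtype.val_injective
  set A : Set (Lat u) := f ⁻¹' (A₀ : Set (Fin n → ℤ)) with hA
  have hfA : f '' A = (A₀ : Set (Fin n → ℤ)) := by
    rw [hA, Set.image_preimage_eq_iff]
    intro z hz
    have h1 := ((mem_Bl hn' u _ _ _).1 (Finset.mem_coe.1 hz)).1
    exact ⟨⟨z, h1⟩, rfl⟩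
  have hAcard : A.ncard = A₀.card := by
    rw [← Set.ncard_image_of_injective A hfi, hfA, Set.ncard_coe_finset]
  have h0A : (0 : Lat u) ∈ A := by
    rw [hA, Set.mem_preimage, map_zero, Finset.mem_coe, hA₀, mem_Bl hn']
    refine ⟨(Lat u).zero_mem, ?_⟩
    have h1 : Pool.Agent.R934.LB.sq (0 : Fin n → ℤ) = 0 := by
      unfold Pool.Agent.R934.LB.sq
      simp
    rw [h1]
    positivity
  have hAfin : A.Finite := by
    rw [hA]
    exact A₀.finite_toSet.preimage hfi.injOn
  -- progressions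
  have hPimg : ∀ {d : ℕ} (a : Lat u) (v : Fin d → Lat u) (N : Fin d → ℕ),
      (Prog a v N).ncard = (Prog (f a) (fun i => f (v i)) N).ncard := by
    intro d a v N
    rw [← image_prog, Set.ncard_image_of_injective _ hfi]
  have hAPimg : ∀ {d : ℕ} (a : Lat u) (v : Fin d → Lat u) (N : Fin d → ℕ),
      (A ∩ Prog a v N).ncard =
      ((A₀ : Set (Fin n → ℤ)) ∩ Prog (f a) (fun i => f (v i)) N).ncard := by
    intro d a v N
    rw [← image_prog, ← hfA, ← Set.image_inter hfi, Set.ncard_image_of_injective _ hfi]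
  have part1 : ∀ (d m : ℕ) (x a : Lat u) (v : Fin d → Lat u) (N : Fin d → ℕ),
      Prog a v N ⊆ Transl A m x → ((Prog a v N).ncard : ℝ) ≤ Real.exp (B * (m : ℝ) ^ 2) := by
    intro d m x a v N h
    rw [hPimg]
    have h1 : Prog (f a) (fun i => f (v i)) N ⊆ Transl (A₀ : Set (Fin n → ℤ)) m (f x) := by
      rw [← image_prog, ← hfA]
      exact (Set.image_mono h).trans (image_transl f A m x)
    refine (contained hn' hq u hu m d (f x) (f a) (fun i => f (v i)) N h1).trans ?_
    apply Real.exp_le_exp.2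
    exact mul_le_mul_of_nonneg_right hB16 (by positivity)
  have part2 : ∀ (d m : ℕ) (x a : Lat u) (v : Fin d → Lat u) (N : Fin d → ℕ) (η : ℝ), 1 ≤ m →
      0 < η → η * ((∏ i, N i : ℕ) : ℝ) ≤ ((Prog a v N ∩ Transl A m x).ncard : ℝ) →
      ((Prog a v N).ncard : ℝ) ≤ Real.exp (B * ((m : ℝ) / η) ^ 5) := by
    intro d m x a v N η hm hη h
    rw [hPimg]
    apply density hn' hq hρ1 u hu m d hm (f x) (f a) (fun i => f (v i)) (fun i => (v i).2) N η hη
    refine h.trans ?_
    have h1 : (Prog a v N ∩ Transl A m x).ncard ≤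
        (Prog (f a) (fun i => f (v i)) N ∩ Transl (A₀ : Set (Fin n → ℤ)) m (f x)).ncard := by
      rw [← Set.ncard_image_of_injective _ hfi]
      apply Set.ncard_le_ncard _ ((prog_finite _ _ _).subset Set.inter_subset_left)
      rw [Set.image_inter hfi, image_prog]
      apply Set.inter_subset_inter_right
      rw [← hfA]
      exact image_transl f A m x
    exact_mod_cast h1
  have part2' : ∀ (d m : ℕ) (x a : Lat u) (v : Fin d → Lat u) (N : Fin d → ℕ) (η : ℝ), 1 ≤ m →
      0 < η → η ≤ 1 → η * ((∏ i, N i : ℕ) : ℝ) ≤ ((Prog a v N ∩ Transl A m x).ncard : ℝ) →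
      ((∏ i, N i : ℕ) : ℝ) ≤ ((D m : ℝ) / η) ^ (D m) := by
    intro d m x a v N η hm hη hη1 h
    have h0 := power hn' hq hρ1 u hu m d hm (f x) (f a) (fun i => f (v i)) (fun i => (v i).2) N η hη
      (h.trans (by
        have h1 : (Prog a v N ∩ Transl A m x).ncard ≤
            (Prog (f a) (fun i => f (v i)) N ∩ Transl (A₀ : Set (Fin n → ℤ)) m (f x)).ncard := by
          rw [← Set.ncard_image_of_injective _ hfi]
          apply Set.ncard_le_ncard _ ((prog_finite _ _ _).subset Set.inter_subset_left)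
          rw [Set.image_inter hfi, image_prog]
          apply Set.inter_subset_inter_right
          rw [← hfA]
          exact image_transl f A m x
        exact_mod_cast h1))
    have hmr : (1 : ℝ) ≤ m := by exact_mod_cast hm
    refine power_num (X := 2 * 2 ^ (2 ^ (16 * m ^ 2 * ρ ^ 2)) * (4 * m * ρ + 1))
      (e := 2 ^ (16 * m ^ 2 * ρ ^ 2) + 1) (M := 16 * m ^ 2 * ρ ^ 2) ?_ hη hη1 (Nat.le_add_left 1 _)
      (Nat.one_le_iff_ne_zero.2 (by positivity)) ?_ (h0.trans (le_of_eq ?_))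
    · have h1 : (1 : ℝ) ≤ 2 ^ (2 ^ (16 * m ^ 2 * ρ ^ 2)) := one_le_pow₀ (by norm_num)
      have h2 : (1 : ℝ) ≤ 4 * m * ρ + 1 := by
        have : 0 ≤ 4 * (m : ℝ) * ρ := by positivity
        linarith
      nlinarith
    · rw [hDdef]
      push_cast
      exact le_refl _
    · have key : ∀ (r : ℕ) (z : ℝ), (2 * (2 / η) ^ r) * (z / η) =
          (2 * 2 ^ r * z) * (1 / η) ^ (r + 1) := by
        intro r z
        rw [div_pow, one_div_pow, pow_succ]
        field_simp
      congr 1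
      exact key _ _
  have part3' : ∀ (d : ℕ) (a : Lat u) (v : Fin d → Lat u) (N : Fin d → ℕ) (δ : ℝ), ε' ≤ δ →
      ((A ∩ Prog a v N).ncard : ℝ) ≤
        (N₀ : ℝ) ^ (short N₀ N) * ((Prog a v N).ncard : ℝ) ^ δ := by
    intro d a v N δ hδ
    rcases Nat.eq_zero_or_pos (Prog a v N).ncard with h0 | h0
    · have h1 : (A ∩ Prog a v N).ncard = 0 := by
        have := Set.ncard_le_ncard (Set.inter_subset_right (s := A) (t := Prog a v N))
          (prog_finite a v N)
        omega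
      rw [h1]
      push_cast
      positivity
    · rw [hAPimg, hPimg]
      refine (short_sides hn' hq hN₀2 ε' hε'pos hρN u hu d (f a) (fun i => f (v i)) N).trans ?_
      apply mul_le_mul_of_nonneg_left _ (by positivity)
      apply Real.rpow_le_rpow_of_exponent_le _ hδ
      rw [← hPimg]
      exact_mod_cast h0
  refine ⟨n, Lat u, A, ?_, hAfin, ⟨0, h0A⟩, ?_, ?_, part1, part2, part2',
    fun d a v N => part3' d a v N ε (min_le_left _ _), ?_⟩
  · intro k x hk h
    apply Subtype.ext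
    funext i
    have h1 : k • (x : Fin n → ℤ) = 0 := by
      have := congrArg Subtype.val h
      simpa using this
    have h2 := congrFun h1 i
    rw [Pi.smul_apply, nsmul_eq_mul] at h2
    rcases mul_eq_zero.1 h2 with h3 | h3
    · exact absurd (by exact_mod_cast h3) hk
    · exact h3
  · rw [hAcard]
    refine le_trans ?_ hdouble
    have h1 : (A + A).ncard ≤ (Bl u (ρ * q) 2).card := by
      rw [← Set.ncard_image_of_injective _ hfi, Set.image_add, hfA, ← Set.ncard_coe_finset]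
      apply Set.ncard_le_ncard _ (Finset.finite_toSet _)
      rintro _ ⟨x, hx, y, hy, rfl⟩
      rw [Finset.mem_coe, mem_Bl hn']
      have hx' := (mem_Bl hn' u _ _ _).1 (Finset.mem_coe.1 hx)
      have hy' := (mem_Bl hn' u _ _ _).1 (Finset.mem_coe.1 hy)
      refine ⟨(Lat u).add_mem hx'.1 hy'.1, ?_⟩
      have h3 := sq_add_le x y
      have hx2 := hx'.2
      have hy2 := hy'.2
      push_cast at hx2 hy2 ⊢
      show Pool.Agent.R934.LB.sq (x + y) ≤ _
      nlinarith
    exact_mod_cast h1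
  · rw [hAcard]
    refine le_trans ?_ hsize
    apply Real.rpow_le_rpow_of_exponent_le (by linarith)
    rw [hE]
    linarith
  · intro d a v N hP hAP
    have hsizeA : K ^ (6 * C + 2) ≤ (A.ncard : ℝ) := by rw [hAcard]; exact hsize
    obtain ⟨hKM, hKt⟩ := num_short hC hK hsizeA hAP (Nat.cast_nonneg _) hP
      (M := (N₀ : ℝ) ^ (short N₀ N)) (by positivity) (part3' d a v N (1 / 2) (min_le_right _ _))
    have hle : (A ∩ Prog a v N).ncard ≤ (Prog a v N).ncard :=
      Set.ncard_le_ncard Set.inter_subset_right (prog_finite a v N)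
    have hKP : K ≤ ((Prog a v N).ncard : ℝ) := hKt.trans (by exact_mod_cast hle)
    have htpos : (0 : ℝ) < ((A ∩ Prog a v N).ncard : ℝ) := lt_of_lt_of_le hK0 hKt
    refine ⟨?_, ?_, ?_⟩
    · -- power saving
      have hle2 : (Prog a v N).ncard ≤ ∏ i, N i := by
        have h1 : Prog a v N ⊆ ((Fintype.piFinset fun i : Fin d => Finset.range (N i)).image
            (fun k : Fin d → ℕ => a + ∑ i, k i • v i) : Set (Lat u)) := by
          rintro y ⟨k, hk, rfl⟩
          rw [Finset.coe_image]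
          exact ⟨k, by rw [Finset.mem_coe, Fintype.mem_piFinset]; exact fun i =>
            Finset.mem_range.2 (hk i), rfl⟩
        calc (Prog a v N).ncard ≤ _ := Set.ncard_le_ncard h1 (Finset.finite_toSet _)
          _ = _ := Set.ncard_coe_finset _
          _ ≤ _ := Finset.card_image_le
          _ = ∏ i, N i := by rw [Fintype.card_piFinset]; simp
      have hPr : ((A ∩ Prog a v N).ncard : ℝ) ≤ ((∏ i, N i : ℕ) : ℝ) := by
        exact_mod_cast hle.trans hle2
      have hPrpos : (0 : ℝ) < ((∏ i, N i : ℕ) : ℝ) := lt_of_lt_of_le htpos hPr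
      have hKPr : K ≤ ((∏ i, N i : ℕ) : ℝ) := hKt.trans hPr
      set η : ℝ := ((A ∩ Prog a v N).ncard : ℝ) / ((∏ i, N i : ℕ) : ℝ) with hη
      have hηpos : 0 < η := by positivity
      have hη1 : η ≤ 1 := by rw [hη, div_le_one hPrpos]; exact hPr
      have h1 := part2' d 1 0 a v N η le_rfl hηpos hη1 (by
        rw [hη, div_mul_cancel₀ _ hPrpos.ne']
        have h2 : (A ∩ Prog a v N).ncard ≤ (Prog a v N ∩ Transl A 1 0).ncard := by
          apply Set.ncard_le_ncard _ ((prog_finite a v N).subset Set.inter_subset_left)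
          rintro y ⟨hy1, hy2⟩
          refine ⟨hy2, fun _ => y, fun _ => 0, fun _ => hy1, fun _ => h0A, ?_⟩
          simp
        exact_mod_cast h2)
      have h2 : K ≤ ((D 1 : ℝ) / η) ^ (D 1) := hKPr.trans h1
      have h3 : K ^ (1 / (D 1 : ℝ)) ≤ (D 1 : ℝ) / η := by
        have h4 : (((D 1 : ℝ) / η) ^ (D 1)) ^ (1 / (D 1 : ℝ)) = (D 1 : ℝ) / η := by
          rw [← Real.rpow_natCast, ← Real.rpow_mul (by positivity), mul_one_div_cancel (by positivity),
            Real.rpow_one]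
        rw [← h4]
        exact Real.rpow_le_rpow hK0.le h2 hcpos.le
      rw [le_div_iff₀ hηpos, hη, mul_div_assoc', div_le_iff₀ hPrpos] at h3
      calc 1 / (D 1 : ℝ) * K ^ (1 / (D 1 : ℝ)) * ((A ∩ Prog a v N).ncard : ℝ)
          = 1 / (D 1 : ℝ) * (K ^ (1 / (D 1 : ℝ)) * ((A ∩ Prog a v N).ncard : ℝ)) := by ring
        _ ≤ 1 / (D 1 : ℝ) * ((D 1 : ℝ) * ((∏ i, N i : ℕ) : ℝ)) :=
            mul_le_mul_of_nonneg_left h3 hcpos.le
        _ = ((∏ i, N i : ℕ) : ℝ) := by field_simp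
    · have h1 := Real.log_le_log hK0 hKM
      rwa [Real.log_pow] at h1
    · intro m x h
      have h1 := hKP.trans (part1 d m x a v N h)
      rwa [← Real.log_le_iff_le_exp hK0] at h1

end Pool.Agent.Results.MP_86f7a7_co.LatticeBalls
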