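import Pool.Agent.R851.RR.Core
import Pool.Agent.R851.RR.Pack

set_option autoImplicit false
open scoped Pointwise

/-!
Rank reduction for progressions in Q1 of MP_86f7a7_co.

1. If a finite set `A` has at most `K ^ h` points and at most `K` points in every translate of a
subspace of dimension at most `δ log K`, and `P` is a progression of any rank with
`|P| ≤ K ^ C |A|` and `|A ∩ P| ≥ K ^ (- C) |A|`, then some progression `P' ⊆ P` that uses only
at most `T log K` of the generators of `P`, all with sides at most `T` (with `T` depending on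
`C`, `h`, `δ` only), has `|A ∩ P'| ≥ K ^ (- (3 C + 1)) |A|`.
2. The same for 1-separated subsets of balls of radius `ρ` in `ℝ ^ n` when `K ≥ exp (κ n)`.
3. Hence Q1 would give progressions of rank `O (log K)` with bounded sides for the sets of 1, with
an exponent that does not depend on `h` and `δ`.
-/

namespace Pool.Agent.Results.MP_86f7a7_co.RankReduction

open Finset

/-- The progression with base point `a`, generators `v i` and lengths `N i`. -/
def prog {V : Type*} [AddCommGroup V] {d : ℕ} (a : V) (v : Fin d → V) (N : Fin d → ℕ) : Set V :=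
  {x : V | ∃ k : Fin d → ℕ, (∀ i, k i < N i) ∧ x = a + ∑ i, k i • v i}

lemma coe_progF {V : Type*} [AddCommGroup V] {d : ℕ} (a : V) (v : Fin d → V) (N : Fin d → ℕ) :
    ((R851RR.progF a v N univ : Finset V) : Set V) = prog a v N := by
  ext x
  rw [Finset.mem_coe, R851RR.mem_progF]
  rfl

lemma progF_sub {V : Type*} [AddCommGroup V] {d : ℕ} (a : V) (v : Fin d → V) (N : Fin d → ℕ)
    (hN : ∀ i, 0 < N i) (S : Finset (Fin d)) :
    ((R851RR.progF a v N S : Finset V) : Set V) =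
      prog a (v ∘ (fun j => (S.equivFin.symm j : Fin d)))
        (N ∘ (fun j => (S.equivFin.symm j : Fin d))) := by
  classical
  ext x
  rw [Finset.mem_coe, R851RR.mem_progF]
  have hsum : ∀ f : Fin d → V, ∑ i ∈ S, f i = ∑ j : Fin S.card, f (S.equivFin.symm j) := by
    intro f
    rw [← Finset.sum_coe_sort S f]
    exact (Equiv.sum_comp S.equivFin.symm (fun i : S => f i)).symm
  constructor
  · rintro ⟨k, hk, rfl⟩
    refine ⟨fun j => k (S.equivFin.symm j), fun j => hk _, ?_⟩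
    congr 1
    exact hsum (fun i => k i • v i)
  · rintro ⟨k, hk, rfl⟩
    refine ⟨fun i => if h : i ∈ S then k (S.equivFin ⟨i, h⟩) else 0, fun i => ?_, ?_⟩
    · show (if h : i ∈ S then k (S.equivFin ⟨i, h⟩) else 0) < N i
      split_ifs with h
      · have := hk (S.equivFin ⟨i, h⟩)
        simpa using this
      · exact hN i
    · congr 1
      rw [hsum (fun i => (if h : i ∈ S then k (S.equivFin ⟨i, h⟩) else 0) • v i)]
      refine Finset.sum_congr rfl fun j _ => ?_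
      rw [dif_pos (S.equivFin.symm j).2]
      simp

/-- `A` has at most `K` points in every translate of a `ℚ`-subspace of dimension at most
`δ log K`. -/
def Slices {V : Type} [AddCommGroup V] [Module ℚ V] (δ K : ℝ) (A : Set V) : Prop :=
  ∀ (W : Submodule ℚ V) (x : V), Module.Finite ℚ W →
    (Module.finrank ℚ W : ℝ) ≤ δ * Real.log K →
    ((A ∩ {y | y - x ∈ W}).ncard : ℝ) ≤ K

/-- For every progression `P` of any rank `d` with `|P| ≤ K ^ C |A|` and
`|A ∩ P| ≥ K ^ (- C) |A|` there is a progression `P' ⊆ P` whose generators and lengths are at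
most `T log K` of those of `P`, with all lengths at most `T` and
`|A ∩ P'| ≥ K ^ (- (3 C + 1)) |A|`. -/
def Reduces {V : Type} [AddCommGroup V] (C T K : ℝ) (A : Set V) : Prop :=
  ∀ (d : ℕ) (a : V) (v : Fin d → V) (N : Fin d → ℕ),
    ((prog a v N).ncard : ℝ) ≤ K ^ C * A.ncard →
    K ^ (-C) * (A.ncard : ℝ) ≤ ((A ∩ prog a v N).ncard : ℝ) →
    ∃ (d' : ℕ) (a' : V) (σ : Fin d' → Fin d), Function.Injective σ ∧
      (d' : ℝ) ≤ T * Real.log K ∧ (∀ j, (N (σ j) : ℝ) ≤ T) ∧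
      prog a' (v ∘ σ) (N ∘ σ) ⊆ prog a v N ∧
      K ^ (-(3 * C + 1)) * (A.ncard : ℝ) ≤ ((A ∩ prog a' (v ∘ σ) (N ∘ σ)).ncard : ℝ)

/-- Q1 of the problem, as in its frozen statement. -/
def Q1 : Prop :=
  ∃ C : ℝ, 0 < C ∧ ∃ c : ℝ, 0 < c ∧
  ∀ (G : Type) [AddCommGroup G],
    (∀ (n : ℕ) (x : G), n ≠ 0 → n • x = 0 → x = 0) →
    ∀ (A : Set G) (K : ℝ), A.Finite → A.Nonempty →
      ((A + A).ncard : ℝ) ≤ K * (A.ncard : ℝ) →
      ∃ (d : ℕ) (a : G) (v : Fin d → G) (N : Fin d → ℕ) (P : Set G),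
        P = {x : G | ∃ k : Fin d → ℕ, (∀ i, k i < N i) ∧ x = a + ∑ i, k i • v i} ∧
        (d : ℝ) ≤ C * K ^ c ∧
        (P.ncard : ℝ) ≤ C * K ^ c * (A.ncard : ℝ) ∧
        C⁻¹ * K ^ (-c) * (A.ncard : ℝ) ≤ ((A ∩ P).ncard : ℝ)

theorem general (C h δ : ℝ) (hC : 0 ≤ C) (hh : 0 ≤ h) (hδ : 0 < δ) :
    ∃ T : ℝ, 0 ≤ T ∧ ∀ (V : Type) [AddCommGroup V] [Module ℚ V] (K : ℝ), 2 ≤ K →
      ∀ A : Set V, A.Finite → A.Nonempty → (A.ncard : ℝ) ≤ K ^ h → Slices δ K A →
        Reduces C T K A := by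
  classical
  obtain ⟨s, hs⟩ : ∃ s : ℕ, Real.exp (4 * (C + h) / δ) ≤ (2 : ℝ) ^ s := by
    obtain ⟨s, hs⟩ := pow_unbounded_of_one_lt (Real.exp (4 * (C + h) / δ)) (one_lt_two (α := ℝ))
    exact ⟨s, hs.le⟩
  refine ⟨2 ^ s * (2 * (C + h)) + (2 ^ s + 1), by positivity, ?_⟩
  intro V _ _ K hK A hAfin hAne hAcard hslice d a v N hPcard hQcard
  have hK0 : (0 : ℝ) < K := by linarith
  have hK1 : (1 : ℝ) ≤ K := by linarith
  have hlogK : 0 < Real.log K := Real.log_pos (by linarith)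
  obtain ⟨A, rfl⟩ := hAfin.exists_finset_coe
  rw [Set.ncard_coe_finset] at hAcard hPcard hQcard ⊢
  have hApos : (0 : ℝ) < (A.card : ℝ) := by
    have : 0 < A.card := Finset.card_pos.2 (by simpa using hAne)
    exact_mod_cast this
  set P := R851RR.progF a v N univ with hP
  have hPset : prog a v N = (P : Set V) := (coe_progF a v N).symm
  have hPc : (P.card : ℝ) ≤ K ^ C * A.card := by
    rw [hPset, Set.ncard_coe_finset] at hPcard
    exact hPcard
  have hQc : K ^ (-C) * (A.card : ℝ) ≤ ((A ∩ P).card : ℝ) := by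
    rw [hPset, ← Finset.coe_inter, Set.ncard_coe_finset] at hQcard
    exact hQcard
  have hQpos : (0 : ℝ) < ((A ∩ P).card : ℝ) := lt_of_lt_of_le (by positivity) hQc
  have hQne : (A ∩ P).Nonempty := by
    rw [← Finset.card_pos]; exact_mod_cast hQpos
  have hNpos : ∀ i, 0 < N i := by
    obtain ⟨q, hq⟩ := hQne
    have hq2 := (Finset.mem_inter.1 hq).2
    rw [hP, R851RR.mem_progF] at hq2
    obtain ⟨k, hk, -⟩ := hq2
    intro i
    exact lt_of_le_of_lt (Nat.zero_le _) (hk i)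
  obtain ⟨S, L, w₁, w₂, W, hWfin, hScard, hShort, hL, hw₁, hw₂, hwW, hmain⟩ :=
    R851RR.core a v N A hQne s (2 ^ s + 1)
  rw [← hP] at hL hw₁ hw₂ hmain
  have hPle : (P.card : ℝ) ≤ K ^ (C + h) := by
    rw [Real.rpow_add hK0]
    exact hPc.trans (mul_le_mul_of_nonneg_left hAcard (by positivity))
  have hPpos : (0 : ℝ) < P.card := by
    refine lt_of_lt_of_le hQpos ?_
    exact_mod_cast Finset.card_le_card (Finset.inter_subset_right : A ∩ P ⊆ P)
  have hPlog1 : Real.log (P.card : ℝ) ≤ (C + h) * Real.log K := by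
    have := Real.log_le_log hPpos hPle
    rwa [Real.log_rpow hK0] at this
  have hPlog : Real.log ((P.card : ℝ) ^ 2) ≤ 2 * (C + h) * Real.log K := by
    rw [Real.log_pow]
    push_cast
    linarith
  -- rank bound
  have hL2 : (L : ℝ) ≤ 2 * (C + h) * Real.log K := by
    have h1 := Real.log_le_log (by positivity) hL
    rw [Real.log_pow] at h1
    have h2 : (1 : ℝ) ≤ Real.log 3 := by
      rw [Real.le_log_iff_exp_le (by norm_num)]
      have := Real.exp_one_lt_d9
      linarith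
    have h3 : (L : ℝ) * 1 ≤ L * Real.log 3 := mul_le_mul_of_nonneg_left h2 (Nat.cast_nonneg _)
    linarith
  have h2s : (0 : ℝ) < 2 ^ s := by positivity
  -- each part of the span is small
  have hpart : ∀ (w : ℕ) (D : ℝ), (2 : ℝ) ^ s ≤ D → 1 < D →
      (w : ℝ) * Real.log D ≤ 2 * (C + h) * Real.log K →
      (w : ℝ) ≤ δ / 2 * Real.log K := by
    intro w D hD hD1 hwD
    have h2 : 4 * (C + h) / δ ≤ Real.log D := by
      rw [Real.le_log_iff_exp_le (by linarith)]
      linarith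
    by_cases hCh : C + h = 0
    · rw [hCh] at hwD
      have h3 : (0 : ℝ) < Real.log D := Real.log_pos hD1
      have h4 : (w : ℝ) * Real.log D ≤ 0 := by linarith
      have h5 : (w : ℝ) ≤ 0 := by
        by_contra hcon
        push Not at hcon
        have := mul_pos hcon h3
        linarith
      have : 0 < δ / 2 * Real.log K := mul_pos (by positivity) hlogK
      linarith
    · have hCh' : 0 < C + h := lt_of_le_of_ne (by positivity) (Ne.symm hCh)
      have h3 : (w : ℝ) * (4 * (C + h) / δ) ≤ 2 * (C + h) * Real.log K :=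
        (mul_le_mul_of_nonneg_left h2 (Nat.cast_nonneg _)).trans hwD
      rw [mul_div_assoc', div_le_iff₀ hδ] at h3
      have h4 : (4 * (C + h)) * (w : ℝ) ≤ (4 * (C + h)) * (δ / 2 * Real.log K) := by
        linarith
      exact le_of_mul_le_mul_left h4 (by positivity)
  have hwK : (Module.finrank ℚ W : ℝ) ≤ δ * Real.log K := by
    have e1 : (w₁ : ℝ) ≤ δ / 2 * Real.log K := by
      refine hpart w₁ (2 ^ s + 1) (by linarith) (by linarith) ?_
      have h1 := Real.log_le_log (by positivity) hw₁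
      rw [Real.log_pow] at h1
      push_cast at h1
      have : 0 ≤ (C + h) * Real.log K := by positivity
      linarith
    have e2 : (w₂ : ℝ) ≤ δ / 2 * Real.log K := by
      refine hpart w₂ (2 * 2 ^ s + 1) (by linarith) (by linarith) ?_
      have h1 := Real.log_le_log (by positivity) hw₂
      rw [Real.log_pow] at h1
      linarith
    have e3 : (Module.finrank ℚ W : ℝ) ≤ w₁ + w₂ := by exact_mod_cast hwW
    linarith
  obtain ⟨a', hsub, hcount⟩ := hmain ⌊K⌋₊ (by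
    intro x D hDA hD
    have h1 := hslice W x hWfin hwK
    have h2 : ((D : Set V)).ncard ≤ ((A : Set V) ∩ {y | y - x ∈ W}).ncard := by
      refine Set.ncard_le_ncard ?_ ((Finset.finite_toSet A).subset Set.inter_subset_left)
      intro y hy
      exact ⟨hDA hy, hD y hy⟩
    rw [Set.ncard_coe_finset] at h2
    refine Nat.le_floor ?_
    exact le_trans (by exact_mod_cast h2) h1)
  refine ⟨S.card, a', fun j => (S.equivFin.symm j : Fin d), ?_, ?_, ?_, ?_, ?_⟩
  · intro i j hij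
    exact S.equivFin.symm.injective (Subtype.ext hij)
  · have h1 : (S.card : ℝ) ≤ 2 ^ s * L := by exact_mod_cast hScard
    calc (S.card : ℝ) ≤ 2 ^ s * L := h1
      _ ≤ 2 ^ s * (2 * (C + h) * Real.log K) := mul_le_mul_of_nonneg_left hL2 (by positivity)
      _ = 2 ^ s * (2 * (C + h)) * Real.log K := by ring
      _ ≤ (2 ^ s * (2 * (C + h)) + (2 ^ s + 1)) * Real.log K :=
          mul_le_mul_of_nonneg_right (by linarith) hlogK.le
  · intro j
    have h1 : N (S.equivFin.symm j : Fin d) ≤ 2 ^ s + 1 := (hShort _ (S.equivFin.symm j).2).le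
    have h2 : (N (S.equivFin.symm j : Fin d) : ℝ) ≤ 2 ^ s + 1 := by exact_mod_cast h1
    have h3 : (0 : ℝ) ≤ 2 ^ s * (2 * (C + h)) := by positivity
    linarith
  · rw [← progF_sub a' v N hNpos S, hPset]
    exact_mod_cast hsub
  · rw [← progF_sub a' v N hNpos S, ← Finset.coe_inter, Set.ncard_coe_finset]
    set X : ℝ := ((A ∩ R851RR.progF a' v N S).card : ℝ) with hX
    have hX0 : 0 ≤ X := Nat.cast_nonneg _
    have hfl : (⌊K⌋₊ : ℝ) ≤ K := Nat.floor_le hK0.le
    have h1 : (K ^ (-C) * (A.card : ℝ)) ^ 2 ≤ K * (K ^ C * A.card) * X := by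
      calc (K ^ (-C) * (A.card : ℝ)) ^ 2 ≤ ((A ∩ P).card : ℝ) ^ 2 :=
            pow_le_pow_left₀ (by positivity) hQc 2
        _ ≤ (⌊K⌋₊ : ℝ) * (P.card : ℝ) * X := hcount
        _ ≤ K * (K ^ C * A.card) * X := by
            refine mul_le_mul_of_nonneg_right ?_ hX0
            exact mul_le_mul hfl hPc (Nat.cast_nonneg _) hK0.le
    have h2 : (K ^ (-C)) ^ 2 = K ^ (1 : ℝ) * K ^ C * K ^ (-(3 * C + 1)) := by
      rw [← Real.rpow_natCast, ← Real.rpow_mul hK0.le, ← Real.rpow_add hK0, ← Real.rpow_add hK0]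
      congr 1
      push_cast
      ring
    rw [mul_pow, h2, Real.rpow_one] at h1
    have h3 : (K * K ^ C * A.card) * (K ^ (-(3 * C + 1)) * (A.card : ℝ)) ≤
        (K * K ^ C * A.card) * X := by nlinarith [h1]
    exact le_of_mul_le_mul_left h3 (by positivity)

theorem euclid (C κ ρ : ℝ) (hC : 0 ≤ C) (hκ : 0 < κ) (hρ : 0 < ρ) :
    ∃ T : ℝ, 0 ≤ T ∧ ∀ (n : ℕ) (K : ℝ), 2 ≤ K → Real.exp (κ * n) ≤ K →
      ∀ A : Set (EuclideanSpace ℝ (Fin n)), A.Finite → A.Nonempty →
        (∃ c, ∀ x ∈ A, dist x c ≤ ρ) → (∀ x ∈ A, ∀ y ∈ A, x ≠ y → 1 ≤ dist x y) →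
        Reduces C T K A := by
  classical
  have hD1 : 1 < 4 * ρ + 1 := by linarith
  have hlogD : 0 < Real.log (4 * ρ + 1) := Real.log_pos hD1
  obtain ⟨T, hT0, hT⟩ := general C (Real.log (4 * ρ + 1) / κ) (1 / Real.log (4 * ρ + 1)) hC
    (by positivity) (by positivity)
  refine ⟨T, hT0, ?_⟩
  intro n K hK hnK A hAfin hAne hball hsep
  obtain ⟨c, hc⟩ := hball
  have hK0 : (0 : ℝ) < K := by linarith
  have hK1 : (1 : ℝ) ≤ K := by linarith
  have hlogK : 0 < Real.log K := Real.log_pos (by linarith)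
  have hnlog : κ * n ≤ Real.log K := by
    rw [Real.le_log_iff_exp_le hK0]; exact hnK
  have hpow : ∀ w : ℕ, (w : ℝ) ≤ 1 / Real.log (4 * ρ + 1) * Real.log K →
      (4 * ρ + 1) ^ w ≤ K := by
    intro w hw
    have h1 : (w : ℝ) * Real.log (4 * ρ + 1) ≤ Real.log K := by
      have := mul_le_mul_of_nonneg_right hw hlogD.le
      rw [one_div, mul_comm (Real.log (4 * ρ + 1))⁻¹, mul_assoc, inv_mul_cancel₀ hlogD.ne',
        mul_one] at this
      exact this
    rw [← Real.log_le_log_iff (by positivity) hK0, Real.log_pow]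
    exact h1
  refine hT (EuclideanSpace ℝ (Fin n)) K hK A hAfin hAne ?_ ?_
  · -- size bound
    obtain ⟨A, rfl⟩ := hAfin.exists_finset_coe
    rw [Set.ncard_coe_finset]
    have h1 := R851RR.pack (A.image fun y => y - c) ρ hρ.le (by
      intro z hz
      rw [Finset.mem_image] at hz
      obtain ⟨y, hy, rfl⟩ := hz
      rw [← dist_eq_norm]
      exact hc y hy) (by
      intro z hz z' hz' hne
      rw [Finset.mem_image] at hz hz'
      obtain ⟨y, hy, rfl⟩ := hz
      obtain ⟨y', hy', rfl⟩ := hz'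
      have hyy : y ≠ y' := fun h => hne (by rw [h])
      have : y - c - (y' - c) = y - y' := by abel
      rw [this, ← dist_eq_norm]
      exact hsep y hy y' hy' hyy)
    rw [Finset.card_image_of_injective _ sub_left_injective, finrank_euclideanSpace_fin] at h1
    calc (A.card : ℝ) ≤ (2 * ρ + 1) ^ n := h1
      _ ≤ (4 * ρ + 1) ^ n := pow_le_pow_left₀ (by positivity) (by linarith) n
      _ = Real.exp (Real.log (4 * ρ + 1) * n) := by
          rw [mul_comm (Real.log (4 * ρ + 1)), ← Real.log_pow, Real.exp_log (by positivity)]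
      _ ≤ Real.exp (Real.log K * (Real.log (4 * ρ + 1) / κ)) := by
          rw [Real.exp_le_exp]
          rw [mul_div_assoc', le_div_iff₀ hκ]
          nlinarith
      _ = K ^ (Real.log (4 * ρ + 1) / κ) := (Real.rpow_def_of_pos hK0 _).symm
  · intro W x hW hw
    have hfin : (A ∩ {y | y - x ∈ W}).Finite := hAfin.subset Set.inter_subset_left
    have h1 := R851RR.slice_bound ρ hρ.le c hfin.toFinset
      (fun y hy => hc y ((hfin.mem_toFinset.1 hy).1))
      (fun y hy z hz hne => hsep y (hfin.mem_toFinset.1 hy).1 z (hfin.mem_toFinset.1 hz).1 hne)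
      W x (fun y hy => (hfin.mem_toFinset.1 hy).2)
    rw [Set.ncard_eq_toFinset_card _ hfin]
    exact h1.trans (hpow _ hw)

theorem of_Q1 (hQ : Q1) : ∃ C' : ℝ, 0 ≤ C' ∧ ∀ h δ : ℝ, 0 ≤ h → 0 < δ →
    ∃ T : ℝ, 0 ≤ T ∧ ∀ (V : Type) [AddCommGroup V] [Module ℚ V] (K : ℝ), 2 ≤ K →
      ∀ A : Set V, A.Finite → A.Nonempty → ((A + A).ncard : ℝ) ≤ K * A.ncard →
        (A.ncard : ℝ) ≤ K ^ h → Slices δ K A →
        ∃ (d : ℕ) (a : V) (v : Fin d → V) (N : Fin d → ℕ), (d : ℝ) ≤ T * Real.log K ∧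
          (∀ i, (N i : ℝ) ≤ T) ∧ ((prog a v N).ncard : ℝ) ≤ K ^ C' * A.ncard ∧
          K ^ (-C') * (A.ncard : ℝ) ≤ ((A ∩ prog a v N).ncard : ℝ) := by
  classical
  obtain ⟨C, hC, c, hc, H⟩ := hQ
  obtain ⟨e, he⟩ : ∃ e : ℕ, C ≤ (2 : ℝ) ^ e := by
    obtain ⟨e, he⟩ := pow_unbounded_of_one_lt C (one_lt_two (α := ℝ))
    exact ⟨e, he.le⟩
  set c' : ℝ := c + e with hc'
  have hc'0 : 0 ≤ c' := by positivity
  refine ⟨3 * c' + 1, by positivity, ?_⟩
  intro h δ hh hδ
  obtain ⟨T, hT0, hT⟩ := general c' h δ hc'0 hh hδ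
  refine ⟨T, hT0, ?_⟩
  intro V _ _ K hK A hAfin hAne hdoub hsize hslice
  have hK0 : (0 : ℝ) < K := by linarith
  have hK1 : (1 : ℝ) ≤ K := by linarith
  have hCK : C ≤ K ^ (e : ℝ) := by
    rw [Real.rpow_natCast]
    exact he.trans (pow_le_pow_left₀ (by norm_num) hK e)
  obtain ⟨d, a, v, N, P, hP, hd, hPcard, hPdense⟩ := H V (by
    intro n x hn hx
    have h1 : ((n : ℕ) : ℚ) • x = 0 := by
      rw [Nat.cast_smul_eq_nsmul]; exact hx
    rcases smul_eq_zero.1 h1 with h2 | h2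
    · exact absurd (by exact_mod_cast h2) hn
    · exact h2) A K hAfin hAne hdoub
  have hPprog : P = prog a v N := hP
  subst hPprog
  have hA0 : (0 : ℝ) ≤ A.ncard := Nat.cast_nonneg _
  have h1 : ((prog a v N).ncard : ℝ) ≤ K ^ c' * A.ncard := by
    refine hPcard.trans (mul_le_mul_of_nonneg_right ?_ hA0)
    rw [hc', Real.rpow_add hK0, mul_comm (K ^ c)]
    exact mul_le_mul_of_nonneg_right hCK (by positivity)
  have h2 : K ^ (-c') * (A.ncard : ℝ) ≤ ((A ∩ prog a v N).ncard : ℝ) := by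
    refine le_trans (mul_le_mul_of_nonneg_right ?_ hA0) hPdense
    rw [hc', neg_add, Real.rpow_add hK0, mul_comm (K ^ (-c))]
    refine mul_le_mul_of_nonneg_right ?_ (by positivity)
    rw [Real.rpow_neg hK0.le]
    exact inv_anti₀ hC hCK
  obtain ⟨d', a', σ, -, hd', hN', hsub, hdense⟩ :=
    hT V K hK A hAfin hAne hsize hslice d a v N h1 h2
  refine ⟨d', a', v ∘ σ, N ∘ σ, hd', hN', ?_, hdense⟩
  have hfin : (prog a v N).Finite := by
    rw [← coe_progF]
    exact Finset.finite_toSet _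
  calc ((prog a' (v ∘ σ) (N ∘ σ)).ncard : ℝ) ≤ ((prog a v N).ncard : ℝ) := by
        exact_mod_cast Set.ncard_le_ncard hsub hfin
    _ ≤ K ^ c' * A.ncard := h1
    _ ≤ K ^ (3 * c' + 1) * A.ncard := by
        refine mul_le_mul_of_nonneg_right ?_ hA0
        exact Real.rpow_le_rpow_of_exponent_le hK1 (by linarith)

theorem result :
    (∀ C h δ : ℝ, 0 ≤ C → 0 ≤ h → 0 < δ → ∃ T : ℝ, 0 ≤ T ∧
      ∀ (V : Type) [AddCommGroup V] [Module ℚ V] (K : ℝ), 2 ≤ K →
        ∀ A : Set V, A.Finite → A.Nonempty → (A.ncard : ℝ) ≤ K ^ h → Slices δ K A →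
          Reduces C T K A) ∧
    (∀ C κ ρ : ℝ, 0 ≤ C → 0 < κ → 0 < ρ → ∃ T : ℝ, 0 ≤ T ∧
      ∀ (n : ℕ) (K : ℝ), 2 ≤ K → Real.exp (κ * n) ≤ K →
        ∀ A : Set (EuclideanSpace ℝ (Fin n)), A.Finite → A.Nonempty →
          (∃ c, ∀ x ∈ A, dist x c ≤ ρ) → (∀ x ∈ A, ∀ y ∈ A, x ≠ y → 1 ≤ dist x y) →
          Reduces C T K A) ∧
    (Q1 → ∃ C' : ℝ, 0 ≤ C' ∧ ∀ h δ : ℝ, 0 ≤ h → 0 < δ → ∃ T : ℝ, 0 ≤ T ∧
      ∀ (V : Type) [AddCommGroup V] [Module ℚ V] (K : ℝ), 2 ≤ K →
        ∀ A : Set V, A.Finite → A.Nonempty → ((A + A).ncard : ℝ) ≤ K * A.ncard →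
          (A.ncard : ℝ) ≤ K ^ h → Slices δ K A →
          ∃ (d : ℕ) (a : V) (v : Fin d → V) (N : Fin d → ℕ), (d : ℝ) ≤ T * Real.log K ∧
            (∀ i, (N i : ℝ) ≤ T) ∧ ((prog a v N).ncard : ℝ) ≤ K ^ C' * A.ncard ∧
            K ^ (-C') * (A.ncard : ℝ) ≤ ((A ∩ prog a v N).ncard : ℝ)) :=
  ⟨fun C h δ hC hh hδ => general C h δ hC hh hδ,
    fun C κ ρ hC hκ hρ => euclid C κ ρ hC hκ hρ, of_Q1⟩

end Pool.Agent.Results.MP_86f7a7_co.RankReduction
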